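import Mathlib
import Pool.Agent.Y359.PE.Runs

/-!
# Product of an arbitrary set and a set all of whose iterated product sets are large
-/

set_option autoImplicit false

namespace Pool.Agent.R849.RF

open Finset Pool.Agent.Y359.PE
open scoped Classical Pointwise

/-- products of the elements of a set of complex numbers and of a set of integers -/
noncomputable def AB (A : Finset ℂ) (B : Finset ℤ) : Finset ℂ :=
  (A ×ˢ B).image fun s => s.1 * (s.2 : ℂ)

/-- the nonzero elements as units -/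
noncomputable def un (A : Finset ℂ) : Finset ℂˣ :=
  A.preimage ((↑) : ℂˣ → ℂ) (Units.val_injective.injOn)

lemma mem_un {A : Finset ℂ} {u : ℂˣ} : u ∈ un A ↔ (u : ℂ) ∈ A := by simp [un]

lemma image_un {A : Finset ℂ} (h0 : (0 : ℂ) ∉ A) : (un A).image ((↑) : ℂˣ → ℂ) = A := by
  ext a
  rw [mem_image]
  constructor
  · rintro ⟨u, hu, rfl⟩
    exact mem_un.1 hu
  · intro ha
    have ha0 : a ≠ 0 := fun h => h0 (h ▸ ha)
    exact ⟨Units.mk0 a ha0, mem_un.2 (by simpa using ha), by simp⟩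

lemma card_un {A : Finset ℂ} (h0 : (0 : ℂ) ∉ A) : (un A).card = A.card := by
  conv_rhs => rw [← image_un h0]
  rw [card_image_of_injective _ Units.val_injective]

/-- the integers as complex numbers -/
noncomputable def ci (B : Finset ℤ) : Finset ℂ := B.image fun b : ℤ => (b : ℂ)

lemma ci_zero {B : Finset ℤ} (h0 : (0 : ℤ) ∉ B) : (0 : ℂ) ∉ ci B := by
  intro h
  obtain ⟨b, hb, hb0⟩ := mem_image.1 h
  have : b = 0 := by exact_mod_cast hb0
  exact h0 (this ▸ hb)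

lemma card_pk_le (B : Finset ℤ) (h0 : (0 : ℤ) ∉ B) (k : ℕ) :
    (pk k B).card ≤ (un (ci B) ^ k).card := by
  have h1 : ci (pk k B) ⊆ (un (ci B) ^ k).image ((↑) : ℂˣ → ℂ) := by
    intro z hz
    obtain ⟨v, hv, rfl⟩ := mem_image.1 hz
    obtain ⟨f, hf, rfl⟩ := mem_image.1 hv
    rw [Fintype.mem_piFinset] at hf
    have hne : ∀ i, ((f i : ℤ) : ℂ) ≠ 0 := by
      intro i h
      have : f i = 0 := by exact_mod_cast h
      exact h0 (this ▸ hf i)
    rw [mem_image]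
    refine ⟨∏ i, Units.mk0 ((f i : ℤ) : ℂ) (hne i), ?_, ?_⟩
    · rw [mem_pow]
      refine ⟨fun i => ⟨Units.mk0 ((f i : ℤ) : ℂ) (hne i), mem_un.2 ?_⟩, ?_⟩
      · rw [Units.val_mk0]
        exact mem_image_of_mem _ (hf i)
      · rw [List.prod_ofFn]
    · push_cast
      simp
  have h2 : (ci (pk k B)).card = (pk k B).card :=
    card_image_of_injective _ Int.cast_injective
  rw [← h2]
  exact (card_le_card h1).trans card_image_le

lemma un_mul (A : Finset ℂ) (B : Finset ℤ) : (un A * un (ci B)).card ≤ (AB A B).card := by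
  rw [← card_image_of_injective (un A * un (ci B)) Units.val_injective]
  refine card_le_card fun z hz => ?_
  obtain ⟨u, hu, rfl⟩ := mem_image.1 hz
  obtain ⟨x, hx, y, hy, rfl⟩ := mem_mul.1 hu
  obtain ⟨b, hb, hb2⟩ := mem_image.1 (mem_un.1 hy)
  refine mem_image.2 ⟨((x : ℂ), b), mem_product.2 ⟨mem_un.1 hx, hb⟩, ?_⟩
  push_cast
  rw [← hb2]

/-- Plünnecke -/
lemma plun (A : Finset ℂ) (hA : A.Nonempty) (h0 : (0 : ℂ) ∉ A) (B : Finset ℤ) (h0B : (0 : ℤ) ∉ B)
    (k : ℕ) : ((pk k B).card : ℝ) * (A.card : ℝ) ^ k ≤ ((AB A B).card : ℝ) ^ k * A.card := by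
  have hU : (un A).Nonempty := by
    rw [← card_pos, card_un h0]
    exact card_pos.2 hA
  have h1 := pluennecke_ruzsa_inequality_pow_mul hU (un (ci B)) k
  have hA0 : (0 : ℝ) < A.card := by exact_mod_cast card_pos.2 hA
  have h2 : (((un (ci B) ^ k).card : ℕ) : ℝ) ≤
      ((((un A * un (ci B)).card : ℕ) : ℝ) / (A.card : ℝ)) ^ k * A.card := by
    rw [card_un h0] at h1
    have h2 := (NNRat.cast_le (K := ℝ)).2 h1
    push_cast at h2
    exact h2
  have h3 : ((pk k B).card : ℝ) ≤ (((AB A B).card : ℝ) / A.card) ^ k * A.card := by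
    refine le_trans (by exact_mod_cast card_pk_le B h0B k) (h2.trans ?_)
    have h4 : (((un A * un (ci B)).card : ℕ) : ℝ) ≤ (AB A B).card := by
      exact_mod_cast un_mul A B
    gcongr
  have h5 := mul_le_mul_of_nonneg_right h3 (show 0 ≤ (A.card : ℝ) ^ k by positivity)
  refine h5.trans (le_of_eq ?_)
  rw [div_pow]
  field_simp

/-- the product set with a set that may contain zero -/
lemma plun_zero (A : Finset ℂ) (hA : A.Nonempty) (h0 : (0 : ℂ) ∉ A) (B : Finset ℤ)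
    (hB : ∃ b ∈ B, b ≠ 0) (k : ℕ) :
    ((pk k B).card : ℝ) * (A.card : ℝ) ^ k ≤ 2 * (((AB A B).card : ℝ) ^ k * A.card) := by
  have hne : (B.erase 0).Nonempty := by
    obtain ⟨b, hb, hb0⟩ := hB
    exact ⟨b, mem_erase.2 ⟨hb0, hb⟩⟩
  have h1 := plun A hA h0 (B.erase 0) (notMem_erase 0 B) k
  have h2 : pk k B ⊆ insert 0 (pk k (B.erase 0)) := by
    intro v hv
    obtain ⟨f, hf, rfl⟩ := mem_image.1 hv
    rw [Fintype.mem_piFinset] at hf
    by_cases h : ∃ i, f i = 0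
    · obtain ⟨i, hi⟩ := h
      rw [mem_insert]
      exact Or.inl (prod_eq_zero (mem_univ i) hi)
    · push Not at h
      exact mem_insert_of_mem (mem_image_of_mem _ (Fintype.mem_piFinset.2 fun i =>
        mem_erase.2 ⟨h i, hf i⟩))
  have h3 : (pk k B).card ≤ 2 * (pk k (B.erase 0)).card := by
    have h4 := (card_le_card h2).trans (card_insert_le _ _)
    have h5 : 0 < (pk k (B.erase 0)).card := card_pos.2 (pk_nonempty hne)
    omega
  have h4 : AB A (B.erase 0) ⊆ AB A B :=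
    image_subset_image (product_subset_product_right (erase_subset _ _))
  have h5 : ((AB A (B.erase 0)).card : ℝ) ≤ (AB A B).card := by exact_mod_cast card_le_card h4
  have h3' : ((pk k B).card : ℝ) ≤ 2 * (pk k (B.erase 0)).card := by exact_mod_cast h3
  calc ((pk k B).card : ℝ) * (A.card : ℝ) ^ k
      ≤ (2 * (pk k (B.erase 0)).card) * (A.card : ℝ) ^ k := by gcongr
    _ = 2 * ((pk k (B.erase 0)).card * (A.card : ℝ) ^ k) := by ring
    _ ≤ 2 * (((AB A (B.erase 0)).card : ℝ) ^ k * A.card) := by gcongr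
    _ ≤ 2 * (((AB A B).card : ℝ) ^ k * A.card) := by gcongr

/-- from the iterated product set to the product with an arbitrary set -/
theorem arb {ε c : ℝ} (hε : 0 < ε) (hε1 : ε ≤ 1) (hc : 0 < c) (k : ℕ) (hk : 1 / ε ≤ k)
    (B : Finset ℤ) (hB : ∃ b ∈ B, b ≠ 0)
    (h : c * (B.card : ℝ) ^ ((k : ℝ) - ε) ≤ (pk k B).card)
    (A : Finset ℂ) (hA : A.Nonempty) (h0 : (0 : ℂ) ∉ A) :
    (c / 2) ^ (1 / (k : ℝ)) * ((A.card : ℝ) * B.card) ^ (1 - ε) ≤ (AB A B).card := by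
  have hkr : (1 : ℝ) ≤ k := le_trans (by rw [le_div_iff₀ hε]; linarith) hk
  have hk1 : 1 ≤ k := by exact_mod_cast hkr
  have hk0 : (0 : ℝ) < k := by linarith
  have hBne : B.Nonempty := by
    obtain ⟨b, hb, _⟩ := hB
    exact ⟨b, hb⟩
  have hA1 : (1 : ℝ) ≤ A.card := by exact_mod_cast card_pos.2 hA
  have hB1 : (1 : ℝ) ≤ B.card := by exact_mod_cast card_pos.2 hBne
  have hA0 : (0 : ℝ) < A.card := by linarith
  have hB0 : (0 : ℝ) < B.card := by linarith
  obtain ⟨x, hx⟩ : ∃ x : ℝ, x = (AB A B).card := ⟨_, rfl⟩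
  have hx0 : 0 ≤ x := by rw [hx]; positivity
  have h1 := plun_zero A hA h0 B hB k
  rw [← hx] at h1 ⊢
  have h2 : c / 2 * (B.card : ℝ) ^ ((k : ℝ) - ε) * (A.card : ℝ) ^ ((k : ℝ) - 1) ≤ x ^ k := by
    have h3 : c * (B.card : ℝ) ^ ((k : ℝ) - ε) * (A.card : ℝ) ^ k ≤ 2 * (x ^ k * A.card) :=
      (mul_le_mul_of_nonneg_right h (by positivity)).trans h1
    have h4 : (A.card : ℝ) ^ k = (A.card : ℝ) ^ ((k : ℝ) - 1) * A.card := by
      rw [Real.rpow_sub_one hA0.ne', Real.rpow_natCast]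
      field_simp
    rw [h4] at h3
    have h5 : (c * (B.card : ℝ) ^ ((k : ℝ) - ε) * (A.card : ℝ) ^ ((k : ℝ) - 1)) * A.card ≤
        (2 * x ^ k) * A.card := by linarith
    have h6 := le_of_mul_le_mul_right h5 hA0
    linarith
  have h7 : (c / 2 * (B.card : ℝ) ^ ((k : ℝ) - ε) * (A.card : ℝ) ^ ((k : ℝ) - 1)) ^ (1 / (k : ℝ)) ≤
      x := by
    have h8 := Real.rpow_le_rpow (by positivity) h2 (show 0 ≤ 1 / (k : ℝ) by positivity)
    refine h8.trans (le_of_eq ?_)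
    rw [← Real.rpow_natCast, ← Real.rpow_mul hx0, mul_one_div_cancel hk0.ne', Real.rpow_one]
  refine le_trans ?_ h7
  have e0 : (c / 2 * (B.card : ℝ) ^ ((k : ℝ) - ε) * (A.card : ℝ) ^ ((k : ℝ) - 1)) ^ (1 / (k : ℝ)) =
      (c / 2) ^ (1 / (k : ℝ)) * (B.card : ℝ) ^ (((k : ℝ) - ε) * (1 / (k : ℝ))) *
        (A.card : ℝ) ^ (((k : ℝ) - 1) * (1 / (k : ℝ))) := by
    rw [Real.mul_rpow (by positivity) (by positivity),
      Real.mul_rpow (by positivity) (by positivity), ← Real.rpow_mul hB0.le, ← Real.rpow_mul hA0.le]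
  rw [e0, Real.mul_rpow hA0.le hB0.le]
  have e1 : (B.card : ℝ) ^ (1 - ε) ≤ (B.card : ℝ) ^ (((k : ℝ) - ε) * (1 / (k : ℝ))) := by
    refine Real.rpow_le_rpow_of_exponent_le hB1 ?_
    rw [mul_one_div, le_div_iff₀ hk0]
    nlinarith
  have e2 : (A.card : ℝ) ^ (1 - ε) ≤ (A.card : ℝ) ^ (((k : ℝ) - 1) * (1 / (k : ℝ))) := by
    refine Real.rpow_le_rpow_of_exponent_le hA1 ?_
    rw [mul_one_div, le_div_iff₀ hk0]
    have : 1 ≤ ε * k := by
      rw [div_le_iff₀ hε] at hk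
      linarith
    nlinarith
  have e3 : 0 ≤ (c / 2) ^ (1 / (k : ℝ)) := by positivity
  calc (c / 2) ^ (1 / (k : ℝ)) * ((A.card : ℝ) ^ (1 - ε) * (B.card : ℝ) ^ (1 - ε))
      ≤ (c / 2) ^ (1 / (k : ℝ)) * ((A.card : ℝ) ^ (((k : ℝ) - 1) * (1 / (k : ℝ))) *
        (B.card : ℝ) ^ (((k : ℝ) - ε) * (1 / (k : ℝ)))) := by gcongr
    _ = _ := by ring

end Pool.Agent.R849.RF
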