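import Mathlib
import Pool.Agent.R849.RF.Base

/-!
# Arbitrary sets times regular sets
-/

set_option autoImplicit false

namespace Pool.Agent.R849.RF

open Finset Pool.Agent.Y359.PE
open scoped Classical Pointwise

lemma ceil_ok {ε : ℝ} (hε : 0 < ε) : 1 ≤ ⌈1 / ε⌉₊ := Nat.one_le_ceil_iff.2 (by positivity)

theorem regular (K ε : ℝ) (hK : 1 ≤ K) (hε : 0 < ε) (hε1 : ε ≤ 1) :
    ∃ L c : ℝ, 1 ≤ L ∧ 0 < c ∧ ∀ B : Finset ℤ, B.Nonempty →
      (∀ q : ℕ, IsPrimePow q →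
        ((B.filter fun b : ℤ => (q : ℤ) ∣ b).card : ℝ) ≤ (K / q + 1 / L) * B.card) →
      ∀ A : Finset ℂ, A.Nonempty → (0 : ℂ) ∉ A →
      c * ((A.card : ℝ) * B.card) ^ (1 - ε) ≤ (AB A B).card := by
  obtain ⟨L, c, hL, hc, h⟩ := primepow ⌈1 / ε⌉₊ (ceil_ok hε) K ε hK hε hε1
  refine ⟨max L 2, (c / 2) ^ (1 / (⌈1 / ε⌉₊ : ℝ)), hL.trans (le_max_left _ _), by positivity,
    fun B hB hq A hA h0 => ?_⟩
  have hB0 : (0 : ℝ) < B.card := by exact_mod_cast card_pos.2 hB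
  refine arb hε hε1 hc _ (Nat.le_ceil _) B ?_ (h B hB fun q hqq => (hq q hqq).trans ?_) A hA h0
  · by_contra hcon
    push Not at hcon
    obtain ⟨j, hj⟩ := pow_unbounded_of_one_lt (2 * K) (show (1 : ℝ) < 2 by norm_num)
    have hj0 : j ≠ 0 := by
      rintro rfl
      rw [pow_zero] at hj
      linarith
    have h1 := hq (2 ^ j) (Nat.prime_two.isPrimePow.pow hj0)
    have h2 : (B.filter fun b : ℤ => ((2 ^ j : ℕ) : ℤ) ∣ b) = B := by
      refine filter_true_of_mem fun b hb => ?_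
      rw [hcon b hb]
      exact dvd_zero _
    rw [h2] at h1
    push_cast at h1
    have h3 : K / 2 ^ j < 1 / 2 := by
      rw [div_lt_div_iff₀ (by positivity) (by norm_num)]
      linarith
    have h4 : 1 / max L 2 ≤ 1 / 2 := one_div_le_one_div_of_le (by norm_num) (le_max_right _ _)
    have h5 : (K / 2 ^ j + 1 / max L 2) * (B.card : ℝ) < 1 * B.card :=
      mul_lt_mul_of_pos_right (by linarith) hB0
    linarith
  · have h4 : 1 / max L 2 ≤ 1 / L := one_div_le_one_div_of_le (by linarith) (le_max_left _ _)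
    exact mul_le_mul_of_nonneg_right (by linarith) hB0.le

/-- every element lies in a run of `L` consecutive elements -/
def Runs (L : ℕ) (B : Finset ℤ) : Prop :=
  ∀ a ∈ B, ∃ b : ℤ, b ≤ a ∧ a < b + L ∧ Ico b (b + L) ⊆ B

lemma Runs.mono {L L' : ℕ} (hL : 1 ≤ L) (hLL : L ≤ L') {B : Finset ℤ} (h : Runs L' B) :
    Runs L B := by
  intro a ha
  obtain ⟨b, h1, h2, h3⟩ := h a ha
  have hL' : (L : ℤ) ≤ L' := by exact_mod_cast hLL
  have hL1 : (1 : ℤ) ≤ L := by exact_mod_cast hL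
  refine ⟨min a (b + L' - L), min_le_left _ _, ?_, ?_⟩
  · rcases le_total a (b + L' - L) with h4 | h4
    · rw [min_eq_left h4]; linarith
    · rw [min_eq_right h4]; linarith
  · intro y hy
    rw [mem_Ico] at hy
    refine h3 (mem_Ico.2 ⟨?_, ?_⟩)
    · refine le_trans (le_min h1 (by linarith)) hy.1
    · have := min_le_right a (b + L' - L)
      linarith

theorem runsA (ε : ℝ) (hε : 0 < ε) (hε1 : ε ≤ 1) :
    ∃ (L : ℕ) (c : ℝ), 1 ≤ L ∧ 0 < c ∧ ∀ B : Finset ℤ, B.Nonempty → Runs L B →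
      ∀ A : Finset ℂ, A.Nonempty → (0 : ℂ) ∉ A →
      c * ((A.card : ℝ) * B.card) ^ (1 - ε) ≤ (AB A B).card := by
  obtain ⟨L, c, hL, hc, h⟩ := runs ⌈1 / ε⌉₊ (ceil_ok hε) ε hε hε1
  refine ⟨max L 2, (c / 2) ^ (1 / (⌈1 / ε⌉₊ : ℝ)), hL.trans (le_max_left _ _), by positivity,
    fun B hB hq A hA h0 => ?_⟩
  refine arb hε hε1 hc _ (Nat.le_ceil _) B ?_
    (h B hB (hq.mono hL (le_max_left _ _))) A hA h0
  obtain ⟨a, ha⟩ := hB
  obtain ⟨b, _, _, h3⟩ := (hq.mono (L := 2) (by norm_num) (le_max_right _ _)) a ha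
  have hb1 : b ∈ B := h3 (mem_Ico.2 ⟨le_refl _, by push_cast; linarith⟩)
  have hb2 : b + 1 ∈ B := h3 (mem_Ico.2 ⟨by linarith, by push_cast; linarith⟩)
  by_cases hb : b = 0
  · exact ⟨b + 1, hb2, by rw [hb]; norm_num⟩
  · exact ⟨b, hb1, hb⟩

theorem progsA (D : ℕ) (hD : 1 ≤ D) (ε : ℝ) (hε : 0 < ε) (hε1 : ε ≤ 1) :
    ∃ (L : ℕ) (c : ℝ), 1 ≤ L ∧ 0 < c ∧ ∀ (B : Finset ℤ) (ι : Type) (I : Finset ι) (a d : ι → ℤ)
      (n : ι → ℕ), B.Nonempty → (∀ i ∈ I, d i ≠ 0 ∧ IsCoprime (a i) (d i) ∧ L ≤ n i) →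
      (∀ x, x ∈ B ↔ ∃ i ∈ I, ∃ j < n i, x = a i + j * d i) →
      (∀ x ∈ B, (I.filter fun i => ∃ j < n i, x = a i + j * d i).card ≤ D) →
      ∀ A : Finset ℂ, A.Nonempty → (0 : ℂ) ∉ A →
      c * ((A.card : ℝ) * B.card) ^ (1 - ε) ≤ (AB A B).card := by
  obtain ⟨L, c, hL, hc, h⟩ := progs ⌈1 / ε⌉₊ (ceil_ok hε) D hD ε hε hε1
  refine ⟨max L 2, (c / 2) ^ (1 / (⌈1 / ε⌉₊ : ℝ)), hL.trans (le_max_left _ _), by positivity,
    fun B ι I a d n hB h1 h2 h3 A hA h0 => ?_⟩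
  refine arb hε hε1 hc _ (Nat.le_ceil _) B ?_ (h B ι I a d n hB (fun i hi =>
    ⟨(h1 i hi).1, (h1 i hi).2.1, (le_max_left _ _).trans (h1 i hi).2.2⟩) h2 h3) A hA h0
  obtain ⟨x, hx⟩ := hB
  obtain ⟨i, hi, _, _, _⟩ := (h2 x).1 hx
  have hn : 2 ≤ n i := (le_max_right _ _).trans (h1 i hi).2.2
  have hb1 : a i ∈ B := (h2 _).2 ⟨i, hi, 0, by omega, by simp⟩
  have hb2 : a i + d i ∈ B := (h2 _).2 ⟨i, hi, 1, by omega, by simp⟩
  by_cases hb : a i = 0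
  · exact ⟨a i + d i, hb2, by rw [hb, zero_add]; exact (h1 i hi).1⟩
  · exact ⟨a i, hb1, hb⟩

theorem shiftsA (ε : ℝ) (hε : 0 < ε) (hε1 : ε ≤ 1) :
    ∃ (L : ℕ) (c : ℝ), 0 < c ∧ ∀ S : Finset ℤ, S.Nonempty →
      ∀ A : Finset ℂ, A.Nonempty → (0 : ℂ) ∉ A → ∃ t < L,
      c * ((A.card : ℝ) * S.card) ^ (1 - ε) ≤
        (((A ×ˢ S).image fun s => s.1 * ((s.2 : ℂ) + (t : ℂ))).card : ℝ) := by
  obtain ⟨L, c, hL, hc, h⟩ := runsA ε hε hε1
  have hLr : (0 : ℝ) < L := by exact_mod_cast hL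
  refine ⟨L, c / L, by positivity, fun S hS A hA h0 => ?_⟩
  set B : Finset ℤ := (S ×ˢ range L).image fun s => s.1 + (s.2 : ℤ) with hB
  have hSB : S ⊆ B := by
    intro s hs
    exact mem_image.2 ⟨(s, 0), mem_product.2 ⟨hs, mem_range.2 hL⟩, by simp⟩
  have h1 := h B (hS.mono hSB) (by
    intro a ha
    obtain ⟨s, hs, rfl⟩ := mem_image.1 ha
    rw [mem_product, mem_range] at hs
    refine ⟨s.1, by linarith [Int.natCast_nonneg s.2], by
      have : (s.2 : ℤ) < L := by exact_mod_cast hs.2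
      linarith, ?_⟩
    intro y hy
    rw [mem_Ico] at hy
    refine mem_image.2 ⟨(s.1, (y - s.1).toNat), mem_product.2 ⟨hs.1, mem_range.2 ?_⟩, ?_⟩
    · have : ((y - s.1).toNat : ℤ) < L := by
        rw [Int.toNat_of_nonneg (by linarith)]
        linarith
      exact_mod_cast this
    · show s.1 + ((y - s.1).toNat : ℤ) = y
      rw [Int.toNat_of_nonneg (by linarith)]
      ring) A hA h0
  have h3 : AB A B ⊆ (range L).biUnion fun t =>
      (A ×ˢ S).image fun s => s.1 * ((s.2 : ℂ) + (t : ℂ)) := by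
    intro z hz
    obtain ⟨s, hs, rfl⟩ := mem_image.1 hz
    rw [mem_product] at hs
    obtain ⟨r, hr, hr2⟩ := mem_image.1 hs.2
    rw [mem_product] at hr
    rw [mem_biUnion]
    refine ⟨r.2, hr.2, mem_image.2 ⟨(s.1, r.1), mem_product.2 ⟨hs.1, hr.1⟩, ?_⟩⟩
    rw [← hr2]
    push_cast
    rfl
  have h4 : ((AB A B).card : ℝ) ≤ ∑ t ∈ range L,
      (((A ×ˢ S).image fun s => s.1 * ((s.2 : ℂ) + (t : ℂ))).card : ℝ) := by
    exact_mod_cast (card_le_card h3).trans card_biUnion_le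
  by_contra hcon
  push Not at hcon
  have h5 : ∑ t ∈ range L,
      (((A ×ˢ S).image fun s => s.1 * ((s.2 : ℂ) + (t : ℂ))).card : ℝ) <
      ∑ t ∈ range L, c / L * ((A.card : ℝ) * S.card) ^ (1 - ε) := by
    refine sum_lt_sum_of_nonempty ⟨0, mem_range.2 hL⟩ ?_
    intro t ht
    exact hcon t (mem_range.1 ht)
  rw [sum_const, nsmul_eq_mul, card_range] at h5
  have h6 : (L : ℝ) * (c / L * ((A.card : ℝ) * S.card) ^ (1 - ε)) =
      c * ((A.card : ℝ) * S.card) ^ (1 - ε) := by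
    field_simp
  rw [h6] at h5
  have h7 : ((A.card : ℝ) * S.card) ^ (1 - ε) ≤ ((A.card : ℝ) * B.card) ^ (1 - ε) := by
    refine Real.rpow_le_rpow (by positivity) ?_ (by linarith)
    have : (S.card : ℝ) ≤ B.card := by exact_mod_cast card_le_card hSB
    gcongr
  have h8 := mul_le_mul_of_nonneg_left h7 hc.le
  linarith

/-- sets of integers with elements in long runs -/
theorem someRuns (ε : ℝ) (hε : 0 < ε) (hε1 : ε < 1) :
    ∃ (L : ℕ) (c : ℝ), 1 ≤ L ∧ 0 < c ∧ ∀ A : Finset ℤ, (0 : ℤ) ∉ A →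
      c * ((A.card : ℝ) * (A.filter fun a => ∃ b : ℤ, b ≤ a ∧ a < b + L ∧
        Ico b (b + L) ⊆ A).card) ^ (1 - ε) ≤ (((A ×ˢ A).image fun s => s.1 * s.2).card : ℝ) := by
  obtain ⟨L, c, hL, hc, h⟩ := runsA ε hε hε1.le
  refine ⟨L, c, hL, hc, fun A h0 => ?_⟩
  set B := A.filter fun a => ∃ b : ℤ, b ≤ a ∧ a < b + L ∧ Ico b (b + L) ⊆ A with hB
  rcases B.eq_empty_or_nonempty with he | hne
  · rw [he, card_empty, Nat.cast_zero, mul_zero, Real.zero_rpow (by linarith), mul_zero]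
    positivity
  have hBA : B ⊆ A := filter_subset _ _
  have hR : Runs L B := by
    intro a ha
    obtain ⟨b, h1, h2, h3⟩ := (mem_filter.1 ha).2
    exact ⟨b, h1, h2, fun y hy => mem_filter.2 ⟨h3 hy, b, (mem_Ico.1 hy).1, (mem_Ico.1 hy).2, h3⟩⟩
  have h1 := h B hne hR (ci A) ((hne.mono hBA).image _) (ci_zero h0)
  have h2 : (ci A).card = A.card := card_image_of_injective _ Int.cast_injective
  rw [h2] at h1
  refine h1.trans ?_
  have h3 : AB (ci A) B ⊆ ((A ×ˢ A).image fun s => s.1 * s.2).image fun z : ℤ => (z : ℂ) := by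
    intro z hz
    obtain ⟨s, hs, rfl⟩ := mem_image.1 hz
    rw [mem_product] at hs
    obtain ⟨a, ha, ha2⟩ := mem_image.1 hs.1
    refine mem_image.2 ⟨a * s.2, mem_image.2 ⟨(a, s.2), mem_product.2 ⟨ha, hBA hs.2⟩, rfl⟩, ?_⟩
    rw [← ha2]
    push_cast
    rfl
  exact_mod_cast (card_le_card h3).trans card_image_le

end Pool.Agent.R849.RF
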